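import Pool.Agent.Helper79.OB.GoalsC

/-!
Project OB (MP_fc0446_an), packet NUMT: the numerical part of the composition of tails.
-/

namespace Pool.Agent.Helper55.OB

/-- The main case: constants at least one. -/
theorem numt_aux (L C₁ c₁ α₁ C₂ c₂ α₂ : ℝ) (hL : 1 ≤ L) (hC₁ : 1 ≤ C₁) (hC₂ : 1 ≤ C₂)
    (hc₁ : 0 < c₁) (hα₁ : 0 < α₁) (hc₂ : 0 < c₂) (hα₂ : 0 < α₂) :
    ∃ C c α : ℝ, 0 < c ∧ 0 < α ∧ ∀ N : ℕ, ∃ k m : ℕ, k * m ≤ N ∧
      min 1 (C₂ * Real.exp (-(c₂ * (k : ℝ) ^ α₂)) +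
        Real.exp (L * k) * (C₁ * Real.exp (-(c₁ * (m : ℝ) ^ α₁)))) ≤
        C * Real.exp (-(c * (N : ℝ) ^ α)) := by
  obtain ⟨θ, hθ⟩ : ∃ θ : ℝ, θ = α₁ / (1 + α₁) := ⟨_, rfl⟩
  have h1α : 0 < 1 + α₁ := by linarith
  have hθ0 : 0 < θ := by rw [hθ]; positivity
  have hθ1 : θ < 1 := by
    rw [hθ, div_lt_one h1α]
    linarith
  have hθ2 : (1 - θ) * α₁ = θ := by
    rw [hθ]
    field_simp
    ring
  have hL0 : 0 < L := by linarith
  obtain ⟨κ, hκ⟩ : ∃ κ : ℝ, κ = min (1 / 4) (c₁ / (4 * L)) := ⟨_, rfl⟩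
  have hκ0 : 0 < κ := by
    rw [hκ]
    apply lt_min (by norm_num)
    positivity
  have hκ1 : κ ≤ 1 / 4 := by rw [hκ]; exact min_le_left _ _
  have hκ2 : 4 * L * κ ≤ c₁ := by
    have h : κ ≤ c₁ / (4 * L) := by rw [hκ]; exact min_le_right _ _
    have h' := (le_div_iff₀ (by positivity : (0 : ℝ) < 4 * L)).1 h
    linarith
  obtain ⟨α, hα⟩ : ∃ α : ℝ, α = θ * min 1 α₂ := ⟨_, rfl⟩
  have hmin : 0 < min 1 α₂ := lt_min one_pos hα₂
  have hα0 : 0 < α := by rw [hα]; positivity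
  have hαθ : α ≤ θ := by
    rw [hα]
    calc θ * min 1 α₂ ≤ θ * 1 := mul_le_mul_of_nonneg_left (min_le_left _ _) hθ0.le
      _ = θ := mul_one _
  have hαθ2 : α ≤ θ * α₂ := by
    rw [hα]
    exact mul_le_mul_of_nonneg_left (min_le_right _ _) hθ0.le
  obtain ⟨c, hc⟩ : ∃ c : ℝ, c = min (L * κ) (c₂ * κ ^ α₂) := ⟨_, rfl⟩
  have hκα : 0 < κ ^ α₂ := Real.rpow_pos_of_pos hκ0 _
  have hc0 : 0 < c := by
    rw [hc]
    exact lt_min (by positivity) (by positivity)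
  have hcL : c ≤ L * κ := by rw [hc]; exact min_le_left _ _
  have hc2 : c ≤ c₂ * κ ^ α₂ := by rw [hc]; exact min_le_right _ _
  refine ⟨C₁ + C₂ + Real.exp (c / κ), c, α, hc0, hα0, fun N => ?_⟩
  by_cases hT : κ * (N : ℝ) ^ θ < 1
  · refine ⟨0, 0, by simp, ?_⟩
    refine (min_le_left _ _).trans ?_
    have hNα : (N : ℝ) ^ α ≤ 1 / κ := by
      rcases Nat.eq_zero_or_pos N with h0 | h0
      · subst h0
        rw [Nat.cast_zero, Real.zero_rpow hα0.ne']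
        positivity
      · have hN1 : (1 : ℝ) ≤ N := by exact_mod_cast h0
        have h2 : (N : ℝ) ^ α ≤ (N : ℝ) ^ θ := Real.rpow_le_rpow_of_exponent_le hN1 hαθ
        have h3 : (N : ℝ) ^ θ ≤ 1 / κ := by
          rw [le_div_iff₀ hκ0]
          linarith
        exact h2.trans h3
    have h4 : c * (N : ℝ) ^ α ≤ c / κ := by
      calc c * (N : ℝ) ^ α ≤ c * (1 / κ) := mul_le_mul_of_nonneg_left hNα hc0.le
        _ = c / κ := by ring
    have h5 : (1 : ℝ) = Real.exp (c / κ) * Real.exp (-(c / κ)) := by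
      rw [← Real.exp_add]
      simp
    calc (1 : ℝ) = Real.exp (c / κ) * Real.exp (-(c / κ)) := h5
      _ ≤ Real.exp (c / κ) * Real.exp (-(c * (N : ℝ) ^ α)) := by
        apply mul_le_mul_of_nonneg_left _ (Real.exp_pos _).le
        apply Real.exp_le_exp.2
        linarith
      _ ≤ (C₁ + C₂ + Real.exp (c / κ)) * Real.exp (-(c * (N : ℝ) ^ α)) := by
        apply mul_le_mul_of_nonneg_right _ (Real.exp_pos _).le
        linarith
  · have hT1 : 1 ≤ κ * (N : ℝ) ^ θ := not_lt.1 hT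
    have hN0 : 0 < N := by
      rcases Nat.eq_zero_or_pos N with h0 | h0
      · exfalso
        subst h0
        rw [Nat.cast_zero, Real.zero_rpow hθ0.ne'] at hT1
        norm_num at hT1
      · exact h0
    have hN1 : (1 : ℝ) ≤ N := by exact_mod_cast hN0
    have hNR : (0 : ℝ) < N := by linarith
    have hNθ : 0 < (N : ℝ) ^ θ := Real.rpow_pos_of_pos hNR _
    obtain ⟨T, hTd⟩ : ∃ T : ℝ, T = κ * (N : ℝ) ^ θ := ⟨_, rfl⟩
    rw [← hTd] at hT1
    obtain ⟨k, hk⟩ : ∃ k : ℕ, k = ⌊T⌋₊ + 1 := ⟨_, rfl⟩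
    have hkT : T ≤ k := by
      rw [hk]
      push_cast
      exact (Nat.lt_floor_add_one T).le
    have hk2 : (k : ℝ) ≤ 2 * T := by
      rw [hk]
      push_cast
      have := Nat.floor_le (by linarith : (0 : ℝ) ≤ T)
      linarith
    have hkpos : 0 < k := by rw [hk]; omega
    have hkR : (0 : ℝ) < k := by exact_mod_cast hkpos
    have hNθN : (N : ℝ) ^ θ ≤ N := by
      calc (N : ℝ) ^ θ ≤ (N : ℝ) ^ (1 : ℝ) := Real.rpow_le_rpow_of_exponent_le hN1 hθ1.le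
        _ = N := Real.rpow_one _
    have hkN : k ≤ N := by
      have : (k : ℝ) ≤ N := by
        calc (k : ℝ) ≤ 2 * T := hk2
          _ = (2 * κ) * (N : ℝ) ^ θ := by rw [hTd]; ring
          _ ≤ 1 * (N : ℝ) ^ θ := by
            apply mul_le_mul_of_nonneg_right _ hNθ.le
            linarith
          _ ≤ N := by rw [one_mul]; exact hNθN
      exact_mod_cast this
    obtain ⟨m, hm⟩ : ∃ m : ℕ, m = N / k := ⟨_, rfl⟩
    have hm1 : 1 ≤ m := by
      rw [hm]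
      exact (Nat.one_le_div_iff hkpos).2 hkN
    have hm2 : (N : ℝ) ≤ 2 * (k * m) := by
      have h1 : N < k * (m + 1) := by
        rw [hm]
        exact Nat.lt_mul_div_succ N hkpos
      have h2 : k * (m + 1) ≤ 2 * (k * m) := by nlinarith
      have h3 : N ≤ 2 * (k * m) := (h1.trans_le h2).le
      exact_mod_cast h3
    refine ⟨k, m, by rw [hm]; exact Nat.mul_div_le N k, ?_⟩
    refine (min_le_right _ _).trans ?_
    have hmlow : (N : ℝ) ^ (1 - θ) ≤ m := by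
      -- N <= 2 k m <= 4 T m = 4 κ N^θ m <= N^θ m
      have h1 : (N : ℝ) ≤ (N : ℝ) ^ θ * m := by
        calc (N : ℝ) ≤ 2 * (k * m) := hm2
          _ = (2 * m) * k := by ring
          _ ≤ (2 * m) * (2 * T) := by
            apply mul_le_mul_of_nonneg_left hk2
            positivity
          _ = (4 * κ) * ((N : ℝ) ^ θ * m) := by rw [hTd]; ring
          _ ≤ 1 * ((N : ℝ) ^ θ * m) := by
            apply mul_le_mul_of_nonneg_right _ (by positivity)
            linarith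
          _ = (N : ℝ) ^ θ * m := one_mul _
      have h2 : (N : ℝ) = (N : ℝ) ^ θ * (N : ℝ) ^ (1 - θ) := by
        rw [← Real.rpow_add hNR]
        ring_nf
        rw [Real.rpow_one]
      have h3 : (N : ℝ) ^ θ * (N : ℝ) ^ (1 - θ) ≤ (N : ℝ) ^ θ * m := by
        rw [← h2]
        exact h1
      exact le_of_mul_le_mul_left h3 hNθ
    have hmα : (N : ℝ) ^ θ ≤ (m : ℝ) ^ α₁ := by
      calc (N : ℝ) ^ θ = ((N : ℝ) ^ (1 - θ)) ^ α₁ := by
            rw [← Real.rpow_mul hNR.le, hθ2]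
        _ ≤ (m : ℝ) ^ α₁ := Real.rpow_le_rpow (by positivity) hmlow hα₁.le
    have hkey : 2 * (L * k) ≤ c₁ * (m : ℝ) ^ α₁ := by
      calc 2 * (L * k) = (2 * L) * k := by ring
        _ ≤ (2 * L) * (2 * T) := mul_le_mul_of_nonneg_left hk2 (by positivity)
        _ = (4 * L * κ) * (N : ℝ) ^ θ := by rw [hTd]; ring
        _ ≤ c₁ * (N : ℝ) ^ θ := mul_le_mul_of_nonneg_right hκ2 hNθ.le
        _ ≤ c₁ * (m : ℝ) ^ α₁ := mul_le_mul_of_nonneg_left hmα hc₁.le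
    have hNα1 : (N : ℝ) ^ α ≤ (N : ℝ) ^ θ := Real.rpow_le_rpow_of_exponent_le hN1 hαθ
    have hNα2 : (N : ℝ) ^ α ≤ (N : ℝ) ^ (θ * α₂) := Real.rpow_le_rpow_of_exponent_le hN1 hαθ2
    have hNα0 : 0 < (N : ℝ) ^ α := Real.rpow_pos_of_pos hNR _
    have hsecond : Real.exp (L * k) * (C₁ * Real.exp (-(c₁ * (m : ℝ) ^ α₁))) ≤
        C₁ * Real.exp (-(c * (N : ℝ) ^ α)) := by
      have h1 : c * (N : ℝ) ^ α ≤ L * k := by
        calc c * (N : ℝ) ^ α ≤ (L * κ) * (N : ℝ) ^ θ :=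
              mul_le_mul hcL hNα1 hNα0.le (by positivity)
          _ = L * T := by rw [hTd]; ring
          _ ≤ L * k := mul_le_mul_of_nonneg_left hkT hL0.le
      calc Real.exp (L * k) * (C₁ * Real.exp (-(c₁ * (m : ℝ) ^ α₁)))
          = C₁ * (Real.exp (L * k) * Real.exp (-(c₁ * (m : ℝ) ^ α₁))) := by ring
        _ = C₁ * Real.exp (L * k + -(c₁ * (m : ℝ) ^ α₁)) := by rw [Real.exp_add]
        _ ≤ C₁ * Real.exp (-(c * (N : ℝ) ^ α)) := by
          apply mul_le_mul_of_nonneg_left _ (by linarith)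
          apply Real.exp_le_exp.2
          linarith
    have hfirst : C₂ * Real.exp (-(c₂ * (k : ℝ) ^ α₂)) ≤ C₂ * Real.exp (-(c * (N : ℝ) ^ α)) := by
      have h1 : c * (N : ℝ) ^ α ≤ c₂ * (k : ℝ) ^ α₂ := by
        calc c * (N : ℝ) ^ α ≤ (c₂ * κ ^ α₂) * (N : ℝ) ^ (θ * α₂) :=
              mul_le_mul hc2 hNα2 hNα0.le (by positivity)
          _ = c₂ * (κ ^ α₂ * ((N : ℝ) ^ θ) ^ α₂) := by
              rw [Real.rpow_mul hNR.le]
              ring
          _ = c₂ * T ^ α₂ := by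
              rw [hTd, Real.mul_rpow hκ0.le hNθ.le]
          _ ≤ c₂ * (k : ℝ) ^ α₂ := by
              apply mul_le_mul_of_nonneg_left _ hc₂.le
              exact Real.rpow_le_rpow (by linarith) hkT hα₂.le
      apply mul_le_mul_of_nonneg_left _ (by linarith)
      apply Real.exp_le_exp.2
      linarith
    calc C₂ * Real.exp (-(c₂ * (k : ℝ) ^ α₂)) +
          Real.exp (L * k) * (C₁ * Real.exp (-(c₁ * (m : ℝ) ^ α₁)))
        ≤ C₂ * Real.exp (-(c * (N : ℝ) ^ α)) + C₁ * Real.exp (-(c * (N : ℝ) ^ α)) :=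
          add_le_add hfirst hsecond
      _ = (C₁ + C₂) * Real.exp (-(c * (N : ℝ) ^ α)) := by ring
      _ ≤ (C₁ + C₂ + Real.exp (c / κ)) * Real.exp (-(c * (N : ℝ) ^ α)) := by
          apply mul_le_mul_of_nonneg_right _ (Real.exp_pos _).le
          have := Real.exp_pos (c / κ)
          linarith

theorem th_numt : Pool.Agent.Helper79.OB.S_NUMT := by
  intro L C₁ c₁ α₁ C₂ c₂ α₂ hc₁ hα₁ hc₂ hα₂
  obtain ⟨C, c, α, hc, hα, h⟩ := numt_aux (max L 1) (max C₁ 1) c₁ α₁ (max C₂ 1) c₂ α₂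
    (le_max_right _ _) (le_max_right _ _) (le_max_right _ _) hc₁ hα₁ hc₂ hα₂
  refine ⟨C, c, α, hc, hα, fun N => ?_⟩
  obtain ⟨k, m, hkm, h1⟩ := h N
  refine ⟨k, m, hkm, le_trans (min_le_min le_rfl ?_) h1⟩
  have h2 : C₂ * Real.exp (-(c₂ * (k : ℝ) ^ α₂)) ≤ max C₂ 1 * Real.exp (-(c₂ * (k : ℝ) ^ α₂)) :=
    mul_le_mul_of_nonneg_right (le_max_left _ _) (Real.exp_pos _).le
  have h3 : Real.exp (L * k) * (C₁ * Real.exp (-(c₁ * (m : ℝ) ^ α₁))) ≤
      Real.exp (max L 1 * k) * (max C₁ 1 * Real.exp (-(c₁ * (m : ℝ) ^ α₁))) := by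
    calc Real.exp (L * k) * (C₁ * Real.exp (-(c₁ * (m : ℝ) ^ α₁)))
        ≤ Real.exp (L * k) * (max C₁ 1 * Real.exp (-(c₁ * (m : ℝ) ^ α₁))) := by
          apply mul_le_mul_of_nonneg_left _ (Real.exp_pos _).le
          exact mul_le_mul_of_nonneg_right (le_max_left _ _) (Real.exp_pos _).le
      _ ≤ Real.exp (max L 1 * k) * (max C₁ 1 * Real.exp (-(c₁ * (m : ℝ) ^ α₁))) := by
          apply mul_le_mul_of_nonneg_right
          · apply Real.exp_le_exp.2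
            exact mul_le_mul_of_nonneg_right (le_max_left _ _) (Nat.cast_nonneg k)
          · have : (0 : ℝ) < max C₁ 1 := lt_of_lt_of_le one_pos (le_max_right _ _)
            positivity
  exact add_le_add h2 h3

end Pool.Agent.Helper55.OB
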